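import Mathlib

set_option autoImplicit false

namespace Pool.Agent.Results.MP_59a3d4_lc.NoGoodSplitting

universe u v

open Submodule

section core

variable {K : Type u} [Field K] {R : Type v} [AddCommGroup R] [Module K R] {κ : Type v}
  (c : Module.Basis ((ℕ ⊕ ℕ) ⊕ κ) K R)

/-- first family of basis vectors -/
noncomputable def X (n : ℕ) : R := c (Sum.inl (Sum.inl n))
/-- second family of basis vectors -/
noncomputable def Y (n : ℕ) : R := c (Sum.inl (Sum.inr n))
/-- remaining basis vectors -/
noncomputable def W (k : κ) : R := c (Sum.inr k)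

/-- values of the projection on the basis -/
noncomputable def PV : (ℕ ⊕ ℕ) ⊕ κ → R
  | Sum.inl (Sum.inl n) => X c n + X c (n + 1) + Y c (n + 1)
  | Sum.inl (Sum.inr n) => -(X c n + X c (n + 1) + Y c (n + 1))
  | Sum.inr k => W c k

/-- the projection -/
noncomputable def P : R →ₗ[K] R := c.constr K (PV c)

theorem P_X (n : ℕ) : P c (X c n) = X c n + X c (n + 1) + Y c (n + 1) := by
  unfold P
  rw [X, Module.Basis.constr_basis]
  rfl

theorem P_Y (n : ℕ) : P c (Y c n) = -(X c n + X c (n + 1) + Y c (n + 1)) := by
  unfold P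
  rw [Y, Module.Basis.constr_basis]
  rfl

theorem P_W (k : κ) : P c (W c k) = W c k := by
  unfold P
  rw [W, Module.Basis.constr_basis]
  rfl

theorem P_P (x : R) : P c (P c x) = P c x := by
  have h : (P c).comp (P c) = P c := by
    refine c.ext ?_
    rintro ((n | n) | k)
    · change P c (P c (X c n)) = P c (X c n)
      rw [P_X, map_add, map_add, P_X, P_X, P_Y]
      abel
    · change P c (P c (Y c n)) = P c (Y c n)
      rw [P_Y, map_neg, map_add, map_add, P_X, P_X, P_Y]
      abel
    · change P c (P c (W c k)) = P c (W c k)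
      rw [P_W, P_W]
  exact LinearMap.congr_fun h x

theorem compl : IsCompl (LinearMap.range (P c)) (LinearMap.ker (P c)) := by
  have := LinearMap.isCompl_of_proj (p := LinearMap.range (P c)) (f := (P c).rangeRestrict) (by
    rintro ⟨_, x, rfl⟩
    apply Subtype.ext
    simp [P_P])
  rwa [LinearMap.ker_rangeRestrict] at this

/-- values of a functional -/
noncomputable def FV (f : ℕ → K) : (ℕ ⊕ ℕ) ⊕ κ → K
  | Sum.inl (Sum.inl n) => f (n + 1)
  | Sum.inl (Sum.inr n) => -(f n + f (n + 1))
  | Sum.inr _ => 0

/-- a functional vanishing on the range of the projection -/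
noncomputable def F (f : ℕ → K) : R →ₗ[K] K := c.constr K (FV f)

theorem F_X (f : ℕ → K) (n : ℕ) : F c f (X c n) = f (n + 1) := by
  unfold F
  rw [X, Module.Basis.constr_basis]
  rfl

theorem F_Y (f : ℕ → K) (n : ℕ) : F c f (Y c n) = -(f n + f (n + 1)) := by
  unfold F
  rw [Y, Module.Basis.constr_basis]
  rfl

theorem F_W (f : ℕ → K) (k : κ) : F c f (W c k) = 0 := by
  unfold F
  rw [W, Module.Basis.constr_basis]
  rfl

theorem F_P (f : ℕ → K) (x : R) : F c f (P c x) = 0 := by
  have h : (F c f).comp (P c) = 0 := by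
    refine c.ext ?_
    rintro ((n | n) | k)
    · change F c f (P c (X c n)) = 0
      rw [P_X, map_add, map_add, F_X, F_X, F_Y]
      ring
    · change F c f (P c (Y c n)) = 0
      rw [P_Y, map_neg, map_add, map_add, F_X, F_X, F_Y]
      ring
    · change F c f (P c (W c k)) = 0
      rw [P_W, F_W]
  exact LinearMap.congr_fun h x

theorem vanish {V : Submodule K R} {B : Set R} (h : IsCompl V (span K B)) (φ : R →ₗ[K] K)
    (hV : ∀ x ∈ V, φ x = 0) (hB : ∀ b ∈ B, φ b = 0) (x : R) : φ x = 0 := by
  have h1 : V ⊔ span K B ≤ LinearMap.ker φ := by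
    refine sup_le (fun x hx => hV x hx) ?_
    rw [span_le]
    exact fun b hb => hB b hb
  rw [h.sup_eq_top] at h1
  exact h1 (mem_top : x ∈ ⊤)

/-- values of a coordinate functional -/
noncomputable def GV (m : ℕ) : (ℕ ⊕ ℕ) ⊕ κ → K
  | Sum.inl (Sum.inl n) => if n = m then 1 else 0
  | Sum.inl (Sum.inr n) => if n = m then -1 else 0
  | Sum.inr _ => 0

/-- a functional vanishing on the kernel of the projection -/
noncomputable def G (m : ℕ) : R →ₗ[K] K := c.constr K (GV m)

theorem G_X (m n : ℕ) : G c m (X c n) = if n = m then 1 else 0 := by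
  unfold G
  rw [X, Module.Basis.constr_basis]
  rfl

theorem G_Y (m n : ℕ) : G c m (Y c n) = if n = m then -1 else 0 := by
  unfold G
  rw [Y, Module.Basis.constr_basis]
  rfl

theorem G_W (m : ℕ) (k : κ) : G c m (W c k) = 0 := by
  unfold G
  rw [W, Module.Basis.constr_basis]
  rfl

theorem G_P (m : ℕ) (x : R) : G c m (P c x) = G c m x := by
  have h : (G c m).comp (P c) = G c m := by
    refine c.ext ?_
    rintro ((n | n) | k)
    · change G c m (P c (X c n)) = G c m (X c n)
      rw [P_X, map_add, map_add, G_X, G_X, G_Y]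
      split_ifs <;> ring
    · change G c m (P c (Y c n)) = G c m (Y c n)
      rw [P_Y, map_neg, map_add, map_add, G_X, G_X, G_Y, G_Y]
      split_ifs <;> ring
    · change G c m (P c (W c k)) = G c m (W c k)
      rw [P_W]
  exact LinearMap.congr_fun h x

open Classical in
theorem core (B₁ B₂ : Set R) (hU : B₁ ∪ B₂ = Set.range c) (hD : Disjoint B₁ B₂)
    (h₁ : IsCompl (LinearMap.range (P c)) (span K B₁))
    (h₂ : IsCompl (LinearMap.ker (P c)) (span K B₂)) : False := by
  have hsub₁ : B₁ ⊆ Set.range c := hU ▸ Set.subset_union_left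
  have hsub₂ : B₂ ⊆ Set.range c := hU ▸ Set.subset_union_right
  -- not both x_n and y_n in B₁
  have hXY : ∀ n, X c n ∈ B₁ → Y c n ∉ B₁ := by
    intro n hx hy
    have hx2 : X c n ∉ B₂ := fun h => Set.disjoint_left.1 hD hx h
    have hy2 : Y c n ∉ B₂ := fun h => Set.disjoint_left.1 hD hy h
    have := vanish h₂ (G c n) (by
      intro x hx
      rw [← G_P, LinearMap.mem_ker.1 hx, map_zero]) (by
      intro b hb
      obtain ⟨i, rfl⟩ := hsub₂ hb
      rcases i with (m | m) | k
      · have hm : m ≠ n := by
          rintro rfl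
          exact hx2 hb
        have := G_X c n m
        rw [if_neg hm] at this
        exact this
      · have hm : m ≠ n := by
          rintro rfl
          exact hy2 hb
        have := G_Y c n m
        rw [if_neg hm] at this
        exact this
      · exact G_W c n k) (X c n)
    rw [G_X, if_pos rfl] at this
    exact one_ne_zero this
  let f : ℕ → K := fun i => if ∀ j < i, X c j ∉ B₁ then (-1) ^ i else 0
  have hF0 : ∀ x, F c f x = 0 := by
    refine vanish h₁ (F c f) ?_ ?_
    · rintro _ ⟨x, rfl⟩
      exact F_P c f x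
    · intro b hb
      obtain ⟨i, rfl⟩ := hsub₁ hb
      rcases i with (n | n) | k
      · have hx : X c n ∈ B₁ := hb
        have h := F_X c f n
        have h' : f (n + 1) = 0 := by
          simp only [f]
          rw [if_neg]
          intro hall
          exact hall n (Nat.lt_succ_self n) hx
        rw [h'] at h
        exact h
      · have hy : Y c n ∈ B₁ := hb
        have hx : X c n ∉ B₁ := fun h => hXY n h hy
        have h := F_Y c f n
        have h' : f n + f (n + 1) = 0 := by
          simp only [f]
          by_cases hall : ∀ j < n, X c j ∉ B₁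
          · rw [if_pos hall, if_pos]
            · ring
            · intro j hj
              rcases Nat.lt_succ_iff_lt_or_eq.1 hj with h | rfl
              · exact hall j h
              · exact hx
          · rw [if_neg hall, if_neg]
            · ring
            · intro hall'
              exact hall (fun j hj => hall' j (Nat.lt_succ_of_lt hj))
        rw [h', neg_zero] at h
        exact h
      · exact F_W c f k
  have e0 : F c f (X c 0) = f 1 := F_X c f 0
  have e1 : F c f (Y c 0) = -(f 0 + f 1) := F_Y c f 0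
  have f0 : f 0 = 1 := by simp [f]
  rw [hF0] at e0 e1
  rw [f0, ← e0] at e1
  simp at e1

end core

/-- For every field `K` and every infinite dimensional `K`-vector space `R` there are a direct sum
decomposition and a basis without a good splitting. -/
theorem result (K : Type u) [Field K] (R : Type v) [AddCommGroup R] [Module K R]
    (hR : ¬ Module.Finite K R) :
    ∃ (V₁ V₂ : Submodule K R) (B : Set R),
      IsCompl V₁ V₂ ∧ LinearIndependent K (fun b : B => (b : R)) ∧ span K B = ⊤ ∧
      ∀ B₁ B₂ : Set R, B₁ ∪ B₂ = B → Disjoint B₁ B₂ →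
        ¬ (IsCompl V₁ (span K B₁) ∧ IsCompl V₂ (span K B₂)) := by
  classical
  let b := Module.Basis.ofVectorSpace K R
  have hinf : Infinite (Module.Basis.ofVectorSpaceIndex K R) := by
    by_contra hcon
    rw [not_infinite_iff_finite] at hcon
    exact hR (Module.Finite.of_basis b)
  obtain ⟨e⟩ : Nonempty (ℕ ⊕ ℕ ↪ Module.Basis.ofVectorSpaceIndex K R) := by
    have e1 : (ℕ ⊕ ℕ) ≃ ℕ := Equiv.natSumNatEquivNat
    exact ⟨e1.toEmbedding.trans (Infinite.natEmbedding _)⟩
  let q : (ℕ ⊕ ℕ) ⊕ ((Set.range e)ᶜ : Set (Module.Basis.ofVectorSpaceIndex K R)) ≃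
      Module.Basis.ofVectorSpaceIndex K R :=
    (Equiv.sumCongr (Equiv.ofInjective e e.injective) (Equiv.refl _)).trans
      (Equiv.Set.sumCompl (Set.range e))
  let c := b.reindex q.symm
  refine ⟨LinearMap.range (P c), LinearMap.ker (P c), Set.range c, compl c,
    c.linearIndependent.linearIndepOn_id, c.span_eq, ?_⟩
  rintro B₁ B₂ hU hD ⟨h1, h2⟩
  exact core c B₁ B₂ hU hD h1 h2

end Pool.Agent.Results.MP_59a3d4_lc.NoGoodSplitting
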